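import Mathlib

/-!
# An infinite interval-splitting strategy beating `2 - 3/(2n)` infinitely often

Let `s n = 4 q^n (1 - q)` with `q = 2^(-1/2^k)` for `2^k ≤ n < 2^(k+1)`. Then `s` is decreasing and
`s (2n) + s (2n+1) = s n`, so there is an infinite strategy whose `n`-th partition has the lengths
`s n, s (n+1), ..., s (2n-1)`: the largest interval, of length `s n`, is cut into intervals of
lengths `s (2n)` and `s (2n+1)`. For `n < 2^K` the ratio `s n / s (2n-1)` is at most `p + p^2` with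
`p = 2^(-1/2^K)`, that is `2 - 3 ln 2 / N + O(1/N^2)` for `N = 2^K - 1`, and `3 ln 2 > 3/2`.
-/

set_option autoImplicit false

namespace Pool.Agent.Results.MP_32269d_co.BetterSplitting

/-- The length of the interval with end points `J.1` and `J.2`. -/
def len (J : ℝ × ℝ) : ℝ := J.2 - J.1

/-- A finite set of intervals `[J.1, J.2)` of positive length which partition `[0, 1)`. -/
structure IsPartition (I : Finset (ℝ × ℝ)) : Prop where
  pos : ∀ J ∈ I, J.1 < J.2
  disjoint : ∀ J ∈ I, ∀ K ∈ I, J ≠ K → Disjoint (Set.Ico J.1 J.2) (Set.Ico K.1 K.2)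
  cover : ⋃ J ∈ I, Set.Ico J.1 J.2 = Set.Ico (0 : ℝ) 1

open Classical in
/-- `I'` arises from `I` by cutting one of its intervals into two. -/
def Cuts (I I' : Finset (ℝ × ℝ)) : Prop :=
  ∃ J ∈ I, ∃ c, J.1 < c ∧ c < J.2 ∧ I' = insert (J.1, c) (insert (c, J.2) (I.erase J))

/-- An infinite-length strategy: `S i` (for `i ≥ 1`) is a partition into `i` intervals, and
`S (i + 1)` arises from `S i` by cutting one interval into two. -/
def IsStrategy (S : ℕ → Finset (ℝ × ℝ)) : Prop :=
  ∀ i, 1 ≤ i → IsPartition (S i) ∧ (S i).card = i ∧ Cuts (S i) (S (i + 1))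

/-- The largest ratio of the lengths of two intervals of `I`. -/
noncomputable def disc (I : Finset (ℝ × ℝ)) : ℝ :=
  sSup {x | ∃ J ∈ I, ∃ K ∈ I, x = len J / len K}

/-- The maximum of `disc (S t)` over `1 ≤ t ≤ n`. -/
noncomputable def discUpTo (S : ℕ → Finset (ℝ × ℝ)) (n : ℕ) : ℝ :=
  sSup {x | ∃ t, 1 ≤ t ∧ t ≤ n ∧ x = disc (S t)}

/-! ### The lengths -/

/-- `q k = 2^(-1/2^k)` -/
noncomputable def q : ℕ → ℝ
  | 0 => 1 / 2
  | k + 1 => √(q k)

theorem q_pos (k : ℕ) : 0 < q k := by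
  induction k with
  | zero => norm_num [q]
  | succ k ih => exact Real.sqrt_pos.2 ih

theorem q_lt (k : ℕ) : q k < 1 := by
  induction k with
  | zero => norm_num [q]
  | succ k ih => rw [q, Real.sqrt_lt' one_pos]; simpa using ih

theorem q_sq (k : ℕ) : q (k + 1) ^ 2 = q k := Real.sq_sqrt (q_pos k).le

theorem q_pow (k : ℕ) : q k ^ (2 ^ k) = 1 / 2 := by
  induction k with
  | zero => norm_num [q]
  | succ k ih => rw [pow_succ, mul_comm (2 ^ k) 2, pow_mul, q_sq, ih]

theorem q_mono {k l : ℕ} (h : k ≤ l) : q k ≤ q l := by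
  induction l, h using Nat.le_induction with
  | base => exact le_rfl
  | succ l _ ih =>
    refine ih.trans ?_
    rw [← q_sq l]
    nlinarith [q_pos (l + 1), q_lt (l + 1)]

/-- the length of the interval with index `n` -/
noncomputable def s (n : ℕ) : ℝ := 4 * q (Nat.log 2 n) ^ n * (1 - q (Nat.log 2 n))

theorem s_pos (n : ℕ) : 0 < s n := by
  have h1 := q_pos (Nat.log 2 n)
  have h2 : 0 < 1 - q (Nat.log 2 n) := by linarith [q_lt (Nat.log 2 n)]
  unfold s
  positivity

theorem s_eq {k n : ℕ} (h1 : 2 ^ k ≤ n) (h2 : n < 2 ^ (k + 1)) :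
    s n = 4 * q k ^ n * (1 - q k) := by
  have : Nat.log 2 n = k := (Nat.log_eq_iff (Or.inr ⟨by norm_num, by
    have := Nat.two_pow_pos k; omega⟩)).2 ⟨h1, h2⟩
  rw [s, this]

theorem exists_k {n : ℕ} (hn : 1 ≤ n) : ∃ k, 2 ^ k ≤ n ∧ n < 2 ^ (k + 1) :=
  ⟨Nat.log 2 n, Nat.pow_log_le_self 2 (by omega), Nat.lt_pow_succ_log_self (by norm_num) n⟩

theorem s_split {n : ℕ} (hn : 1 ≤ n) : s (2 * n) + s (2 * n + 1) = s n := by
  obtain ⟨k, h1, h2⟩ := exists_k hn
  have e1 : 2 ^ (k + 1) = 2 * 2 ^ k := by ring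
  have e2 : 2 ^ (k + 1 + 1) = 4 * 2 ^ k := by ring
  rw [s_eq h1 h2, s_eq (k := k + 1) (n := 2 * n) (by omega) (by omega),
    s_eq (k := k + 1) (n := 2 * n + 1) (by omega) (by omega), pow_succ, pow_mul, q_sq,
    ← q_sq k]
  ring

theorem s_one : s 1 = 1 := by
  rw [s_eq (k := 0) (by norm_num) (by norm_num)]
  norm_num [q]

theorem s_anti_step {n : ℕ} (hn : 1 ≤ n) : s (n + 1) ≤ s n := by
  obtain ⟨k, h1, h2⟩ := exists_k hn
  have hq := q_pos k
  have hq1 := q_lt k
  rcases Nat.lt_or_ge (n + 1) (2 ^ (k + 1)) with h3 | h3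
  · rw [s_eq h1 h2, s_eq (k := k) (n := n + 1) (by omega) h3, pow_succ]
    have h4 : 0 < 4 * q k ^ n * (1 - q k) := by
      have : 0 < 1 - q k := by linarith
      positivity
    nlinarith
  · have h4 : n + 1 = 2 ^ (k + 1) := by omega
    have h5 : 2 ^ (k + 1 + 1) = 2 * 2 ^ (k + 1) := by ring
    have hp := q_pos (k + 1)
    have hp1 := q_lt (k + 1)
    have e1 : s (n + 1) = 2 * (1 - q (k + 1)) := by
      rw [s_eq (k := k + 1) (n := n + 1) (by omega) (by omega), h4, q_pow]
      ring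
    have e2 : q k * s n = 1 - q k := by
      rw [s_eq h1 h2]
      have e3 : q k ^ n * q k = 1 / 4 := by
        rw [← pow_succ, h4, pow_succ, pow_mul, q_pow]; norm_num
      calc q k * (4 * q k ^ n * (1 - q k)) = 4 * (q k ^ n * q k) * (1 - q k) := by ring
        _ = 1 - q k := by rw [e3]; ring
    rw [e1]
    have e4 : q k * (2 * (1 - q (k + 1))) ≤ q k * s n := by
      rw [e2, ← q_sq k]
      nlinarith [mul_pos hp hp, mul_pos (mul_pos hp hp) (sub_pos.2 hp1),
        mul_pos hp (sub_pos.2 hp1), mul_pos (sub_pos.2 hp1) (sub_pos.2 hp1)]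
    exact le_of_mul_le_mul_left e4 hq

theorem s_anti {m n : ℕ} (hm : 1 ≤ m) (h : m ≤ n) : s n ≤ s m := by
  induction n, h using Nat.le_induction with
  | base => exact le_rfl
  | succ n hn ih => exact (s_anti_step (by omega)).trans ih

/-- the ratio of the partition with `t` intervals -/
theorem s_ratio {K t : ℕ} (ht : 1 ≤ t) (htK : t < 2 ^ K) :
    s t ≤ (q K + q K ^ 2) * s (2 * t - 1) := by
  obtain ⟨k, h1, h2⟩ := exists_k ht
  have hkK : k + 1 ≤ K := by
    by_contra h
    have h3 : 2 ^ K ≤ 2 ^ k := Nat.pow_le_pow_right (by norm_num) (by omega)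
    omega
  have hmono := q_mono hkK
  have hp := q_pos (k + 1)
  have hp1 := q_lt (k + 1)
  have hs := s_pos (2 * t - 1)
  have hmono2 : q (k + 1) + q (k + 1) ^ 2 ≤ q K + q K ^ 2 := by
    have := pow_le_pow_left₀ hp.le hmono 2
    linarith
  refine le_trans ?_ (mul_le_mul_of_nonneg_right hmono2 hs.le)
  have e1 : 2 ^ (k + 1) = 2 * 2 ^ k := by ring
  have e2 : 2 ^ (k + 1 + 1) = 4 * 2 ^ k := by ring
  rcases Nat.eq_or_lt_of_le h1 with h3 | h3
  · -- `t = 2^k`
    have e3 : s (2 * t - 1) * 2 * q k = s t := by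
      rw [s_eq h1 h2, s_eq (k := k) (n := 2 * t - 1) (by omega) (by omega)]
      have e4 : q k ^ (2 * t - 1) * q k = q k ^ t * (1 / 2) := by
        rw [← pow_succ, show 2 * t - 1 + 1 = t + t by omega, pow_add]
        congr 1
        rw [← h3, q_pow]
      calc 4 * q k ^ (2 * t - 1) * (1 - q k) * 2 * q k
          = 8 * (q k ^ (2 * t - 1) * q k) * (1 - q k) := by ring
        _ = 4 * q k ^ t * (1 - q k) := by rw [e4]; ring
    rw [← e3, ← q_sq k]
    have : 2 * q (k + 1) ^ 2 ≤ q (k + 1) + q (k + 1) ^ 2 := by nlinarith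
    nlinarith
  · have e3 : (q (k + 1) + q (k + 1) ^ 2) * s (2 * t - 1) = s t := by
      rw [s_eq h1 h2, s_eq (k := k + 1) (n := 2 * t - 1) (by omega) (by omega)]
      have e4 : q (k + 1) ^ (2 * t - 1) * q (k + 1) = q k ^ t := by
        rw [← pow_succ, show 2 * t - 1 + 1 = 2 * t by omega, pow_mul, q_sq]
      calc (q (k + 1) + q (k + 1) ^ 2) * (4 * q (k + 1) ^ (2 * t - 1) * (1 - q (k + 1)))
          = 4 * (q (k + 1) ^ (2 * t - 1) * q (k + 1)) * (1 - q (k + 1) ^ 2) := by ring
        _ = 4 * q k ^ t * (1 - q k) := by rw [e4, q_sq]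
    exact e3.ge

/-! ### The strategy -/

/-- the left end point of the interval with index `n` -/
noncomputable def L (n : ℕ) : ℝ :=
  if _h : n ≤ 1 then 0 else L (n / 2) + if n % 2 = 1 then s (n - 1) else 0
termination_by n
decreasing_by omega

theorem L_one : L 1 = 0 := by rw [L]; simp

theorem L_even {n : ℕ} (hn : 1 ≤ n) : L (2 * n) = L n := by
  rw [L, dif_neg (by omega), show 2 * n / 2 = n by omega, if_neg (by omega), add_zero]

theorem L_odd {n : ℕ} (hn : 1 ≤ n) : L (2 * n + 1) = L n + s (2 * n) := by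
  rw [L, dif_neg (by omega), show (2 * n + 1) / 2 = n by omega, if_pos (by omega),
    Nat.add_sub_cancel]

/-- the interval with index `n` -/
noncomputable def J (n : ℕ) : ℝ × ℝ := (L n, L n + s n)

theorem J_even {n : ℕ} (hn : 1 ≤ n) : J (2 * n) = ((J n).1, L n + s (2 * n)) := by
  simp only [J, L_even hn]

theorem J_odd {n : ℕ} (hn : 1 ≤ n) : J (2 * n + 1) = (L n + s (2 * n), (J n).2) := by
  simp only [J, L_odd hn, ← s_split hn, add_assoc]

/-- the set of the interval with index `n` -/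
def Jset (n : ℕ) : Set ℝ := Set.Ico (J n).1 (J n).2

theorem Jset_split {n : ℕ} (hn : 1 ≤ n) : Jset (2 * n) ∪ Jset (2 * n + 1) = Jset n := by
  unfold Jset
  rw [J_even hn, J_odd hn]
  apply Set.Ico_union_Ico_eq_Ico
  · have := s_pos (2 * n); simp only [J]; linarith
  · have := s_pos (2 * n + 1); have := s_split hn; simp only [J]; linarith

theorem Jset_disj {n : ℕ} (hn : 1 ≤ n) : Disjoint (Jset (2 * n)) (Jset (2 * n + 1)) := by
  unfold Jset
  rw [J_even hn, J_odd hn, Set.disjoint_left]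
  rintro x ⟨_, h1⟩ ⟨h2, _⟩
  exact absurd h1 (not_lt.2 h2)

theorem Jset_nonempty (n : ℕ) : (Jset n).Nonempty :=
  ⟨L n, le_rfl, by have := s_pos n; simp only [J]; linarith⟩

theorem tree (i : ℕ) (hi : 1 ≤ i) :
    (∀ m ∈ Finset.Ico i (2 * i), ∀ n ∈ Finset.Ico i (2 * i), m ≠ n → Disjoint (Jset m) (Jset n)) ∧
    ⋃ m ∈ Finset.Ico i (2 * i), Jset m = Set.Ico (0 : ℝ) 1 := by
  induction i, hi using Nat.le_induction with
  | base =>
    constructor
    · intro m hm n hn hmn
      rw [Finset.mem_Ico] at hm hn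
      omega
    · ext x
      simp only [Set.mem_iUnion, Finset.mem_Ico]
      constructor
      · rintro ⟨m, hm, hx⟩
        have : m = 1 := by omega
        subst this
        simpa [Jset, J, L_one, s_one] using hx
      · intro hx
        exact ⟨1, by omega, by simpa [Jset, J, L_one, s_one] using hx⟩
  | succ i hi ih =>
    obtain ⟨ih1, ih2⟩ := ih
    have hsp := Jset_split hi
    have sub0 : Jset (2 * i) ⊆ Jset i := hsp ▸ Set.subset_union_left
    have sub1 : Jset (2 * i + 1) ⊆ Jset i := hsp ▸ Set.subset_union_right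
    have old : ∀ m, i + 1 ≤ m → m < 2 * i → Disjoint (Jset i) (Jset m) := fun m h1 h2 =>
      ih1 i (Finset.mem_Ico.2 ⟨le_rfl, by omega⟩) m (Finset.mem_Ico.2 ⟨by omega, h2⟩) (by omega)
    have key : ∀ m n, i + 1 ≤ m → m < n → n < 2 * (i + 1) → Disjoint (Jset m) (Jset n) := by
      intro m n h1 h2 h3
      rcases Nat.lt_or_ge n (2 * i) with h4 | h4
      · exact ih1 m (Finset.mem_Ico.2 ⟨by omega, by omega⟩) n
          (Finset.mem_Ico.2 ⟨by omega, h4⟩) (by omega)
      · rcases Nat.lt_or_ge m (2 * i) with h5 | h5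
        · have h6 := (old m h1 h5).symm
          have h7 : n = 2 * i ∨ n = 2 * i + 1 := by omega
          rcases h7 with rfl | rfl
          · exact h6.mono_right sub0
          · exact h6.mono_right sub1
        · have h6 : m = 2 * i := by omega
          have h7 : n = 2 * i + 1 := by omega
          subst h6 h7
          exact Jset_disj hi
    constructor
    · intro m hm n hn hmn
      rw [Finset.mem_Ico] at hm hn
      rcases lt_or_gt_of_ne hmn with h | h
      · exact key m n hm.1 h hn.2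
      · exact (key n m hn.1 h hm.2).symm
    · rw [← ih2]
      ext x
      simp only [Set.mem_iUnion, Finset.mem_Ico]
      constructor
      · rintro ⟨m, hm, hx⟩
        rcases Nat.lt_or_ge m (2 * i) with h | h
        · exact ⟨m, ⟨by omega, h⟩, hx⟩
        · refine ⟨i, ⟨le_rfl, by omega⟩, ?_⟩
          have h7 : m = 2 * i ∨ m = 2 * i + 1 := by omega
          rcases h7 with rfl | rfl
          · exact sub0 hx
          · exact sub1 hx
      · rintro ⟨m, hm, hx⟩
        rcases Nat.eq_or_lt_of_le hm.1 with h | h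
        · subst h
          rw [← hsp] at hx
          rcases hx with hx | hx
          · exact ⟨2 * i, ⟨by omega, by omega⟩, hx⟩
          · exact ⟨2 * i + 1, ⟨by omega, by omega⟩, hx⟩
        · exact ⟨m, ⟨by omega, by omega⟩, hx⟩

open Classical in
/-- the strategy -/
noncomputable def S (i : ℕ) : Finset (ℝ × ℝ) := (Finset.Ico i (2 * i)).image J

theorem J_inj {i m n : ℕ} (hi : 1 ≤ i) (hm : m ∈ Finset.Ico i (2 * i))
    (hn : n ∈ Finset.Ico i (2 * i)) (h : J m = J n) : m = n := by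
  by_contra hne
  have h1 := (tree i hi).1 m hm n hn hne
  have h2 : Jset m = Jset n := by unfold Jset; rw [h]
  rw [h2, disjoint_self] at h1
  exact (Jset_nonempty n).ne_empty h1

theorem S_strategy : IsStrategy S := by
  classical
  intro i hi
  refine ⟨⟨?_, ?_, ?_⟩, ?_, ?_⟩
  · intro K hK
    obtain ⟨n, _, rfl⟩ := Finset.mem_image.1 hK
    have := s_pos n
    simp only [J]; linarith
  · intro K hK K' hK' hne
    obtain ⟨m, hm, rfl⟩ := Finset.mem_image.1 hK
    obtain ⟨n, hn, rfl⟩ := Finset.mem_image.1 hK'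
    exact (tree i hi).1 m hm n hn fun h => hne (by rw [h])
  · rw [← (tree i hi).2]
    ext x
    simp only [S, Set.mem_iUnion, Finset.mem_image, Jset]
    constructor
    · rintro ⟨K, ⟨m, hm, rfl⟩, hx⟩; exact ⟨m, hm, hx⟩
    · rintro ⟨m, hm, hx⟩; exact ⟨J m, ⟨m, hm, rfl⟩, hx⟩
  · rw [S, Finset.card_image_of_injOn, Nat.card_Ico]
    · omega
    · intro m hm n hn h
      exact J_inj hi hm hn h
  · have hi0 : i ∈ Finset.Ico i (2 * i) := Finset.mem_Ico.2 ⟨le_rfl, by omega⟩
    refine ⟨J i, Finset.mem_image.2 ⟨i, hi0, rfl⟩, L i + s (2 * i), ?_, ?_, ?_⟩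
    · have := s_pos (2 * i); simp only [J]; linarith
    · have := s_pos (2 * i + 1); have := s_split hi; simp only [J]; linarith
    · rw [← J_even hi, ← J_odd hi]
      ext K
      simp only [Finset.mem_insert, Finset.mem_erase, S, Finset.mem_image]
      constructor
      · rintro ⟨m, hm, rfl⟩
        rw [Finset.mem_Ico] at hm
        rcases Nat.lt_or_ge m (2 * i) with h | h
        · right; right
          have hm' : m ∈ Finset.Ico i (2 * i) := Finset.mem_Ico.2 ⟨by omega, h⟩
          exact ⟨fun hh => by have := J_inj hi hm' hi0 hh; omega, m, hm', rfl⟩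
        · have h7 : m = 2 * i ∨ m = 2 * i + 1 := by omega
          rcases h7 with rfl | rfl
          · exact Or.inl rfl
          · exact Or.inr (Or.inl rfl)
      · rintro (rfl | rfl | ⟨hne, m, hm, rfl⟩)
        · exact ⟨2 * i, Finset.mem_Ico.2 ⟨by omega, by omega⟩, rfl⟩
        · exact ⟨2 * i + 1, Finset.mem_Ico.2 ⟨by omega, by omega⟩, rfl⟩
        · rw [Finset.mem_Ico] at hm
          have : m ≠ i := fun h => hne (by rw [h])
          exact ⟨m, Finset.mem_Ico.2 ⟨by omega, by omega⟩, rfl⟩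

theorem disc_le {K t : ℕ} (ht : 1 ≤ t) (htK : t < 2 ^ K) : disc (S t) ≤ q K + q K ^ 2 := by
  have hne : {x | ∃ A ∈ S t, ∃ B ∈ S t, x = len A / len B}.Nonempty := by
    have : J t ∈ S t := Finset.mem_image.2 ⟨t, Finset.mem_Ico.2 ⟨le_rfl, by omega⟩, rfl⟩
    exact ⟨_, J t, this, J t, this, rfl⟩
  apply csSup_le hne
  rintro x ⟨A, hA, B, hB, rfl⟩
  obtain ⟨m, hm, rfl⟩ := Finset.mem_image.1 hA
  obtain ⟨n, hn, rfl⟩ := Finset.mem_image.1 hB
  rw [Finset.mem_Ico] at hm hn
  have e1 : len (J m) = s m := by simp [len, J]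
  have e2 : len (J n) = s n := by simp [len, J]
  rw [e1, e2, div_le_iff₀ (s_pos n)]
  have h1 : s m ≤ s t := s_anti ht hm.1
  have h2 : s (2 * t - 1) ≤ s n := s_anti (by omega) (by omega)
  have h3 := s_ratio ht htK
  have h4 : 0 ≤ q K + q K ^ 2 := by have := q_pos K; positivity
  exact h1.trans (h3.trans (mul_le_mul_of_nonneg_left h2 h4))

theorem discUpTo_le {K : ℕ} (hK : 1 ≤ K) : discUpTo S (2 ^ K - 1) ≤ q K + q K ^ 2 := by
  have h2K : 2 ≤ 2 ^ K := by
    calc 2 = 2 ^ 1 := by norm_num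
      _ ≤ 2 ^ K := Nat.pow_le_pow_right (by norm_num) hK
  apply csSup_le
  · exact ⟨_, 1, le_rfl, by omega, rfl⟩
  · rintro x ⟨t, h1, h2, rfl⟩
    exact disc_le h1 (by omega)

theorem q_exp (K : ℕ) : q K = Real.exp (-(Real.log 2 / 2 ^ K)) := by
  have h1 : Real.exp (-(Real.log 2 / 2 ^ K)) ^ (2 ^ K) = 1 / 2 := by
    rw [← Real.exp_nat_mul]
    have : ((2 ^ K : ℕ) : ℝ) * -(Real.log 2 / 2 ^ K) = -Real.log 2 := by
      push_cast
      field_simp
    rw [this, Real.exp_neg, Real.exp_log (by norm_num)]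
    norm_num
  have h2 := q_pow K
  exact (pow_left_inj₀ (q_pos K).le (Real.exp_pos _).le (pow_ne_zero K two_ne_zero)).1
    (h2.trans h1.symm)

/-- **Disproof.** There is an infinite-length strategy such that for every `C` some `n ≥ 1`
satisfies `disc_n(S) < 2 - 3/(2n) - C/n²`. -/
theorem result : ∃ S : ℕ → Finset (ℝ × ℝ), IsStrategy S ∧
    ∀ C : ℝ, ∃ n : ℕ, 1 ≤ n ∧ discUpTo S n < 2 - 3 / (2 * n) - C / n ^ 2 := by
  refine ⟨S, S_strategy, fun C => ?_⟩
  -- choose a large power of two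
  obtain ⟨K, hK⟩ : ∃ K : ℕ, 10 * |C| + 100 < (2 : ℝ) ^ K := pow_unbounded_of_one_lt _ (by norm_num)
  have hC := abs_nonneg C
  have hK1 : 1 ≤ K := by
    by_contra h
    have : K = 0 := by omega
    rw [this] at hK
    norm_num at hK
    linarith
  have h2K : 2 ≤ 2 ^ K := by
    calc 2 = 2 ^ 1 := by norm_num
      _ ≤ 2 ^ K := Nat.pow_le_pow_right (by norm_num) hK1
  refine ⟨2 ^ K - 1, by omega, (discUpTo_le hK1).trans_lt ?_⟩
  have hcast : ((2 ^ K - 1 : ℕ) : ℝ) = (2 : ℝ) ^ K - 1 := by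
    rw [Nat.cast_sub (by omega)]; push_cast; ring
  rw [hcast]
  set N : ℝ := (2 : ℝ) ^ K with hN
  have hN100 : 100 < N := by linarith
  have hN0 : 0 < N := by linarith
  have hl1 : 0.69 < Real.log 2 := by have := Real.log_two_gt_d9; linarith
  have hl2 : Real.log 2 < 0.7 := by have := Real.log_two_lt_d9; linarith
  set x : ℝ := Real.log 2 / N with hx
  have hx0 : 0.69 / N < x := by rw [hx]; gcongr
  have hx1 : x < 0.7 / N := by rw [hx]; gcongr
  have hxpos : 0 < x := by have : 0 < 0.69 / N := by positivity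
                           linarith
  -- the bound for `q K`
  have hq : q K * (1 + x) ≤ 1 := by
    rw [q_exp, Real.exp_neg]
    have h1 : 1 + x ≤ Real.exp x := by have := Real.add_one_le_exp x; linarith
    have h2 := Real.exp_pos x
    rw [inv_mul_le_iff₀ h2]
    linarith
  have hq0 := q_pos K
  have hq1 : q K ≤ 1 - x + x ^ 2 := by
    have h1 : 1 ≤ (1 - x + x ^ 2) * (1 + x) := by
      have : (1 - x + x ^ 2) * (1 + x) = 1 + x ^ 3 := by ring
      rw [this]
      have : 0 < x ^ 3 := by positivity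
      linarith
    exact le_of_mul_le_mul_right (hq.trans h1) (by linarith)
  have hxs : x < 0.007 := by
    have : 0.7 / N < 0.007 := by
      rw [div_lt_iff₀ hN0]; linarith
    linarith
  have hq2 : q K + q K ^ 2 ≤ 2 - 3 * x + 5 * x ^ 2 := by
    have h1 : q K ^ 2 ≤ (1 - x + x ^ 2) ^ 2 := pow_le_pow_left₀ hq0.le hq1 2
    have h2 : (1 - x + x ^ 2) ^ 2 = 1 - 2 * x + 3 * x ^ 2 - 2 * x ^ 3 + x ^ 4 := by ring
    have h3 : 0 ≤ x ^ 3 := by positivity
    have h4 : x ^ 4 ≤ x ^ 2 := by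
      have : x ^ 4 = x ^ 2 * x ^ 2 := by ring
      rw [this]
      have h5 : x ^ 2 ≤ 1 := by nlinarith
      nlinarith [sq_nonneg x]
    rw [h2] at h1
    linarith
  refine hq2.trans_lt ?_
  -- final comparison
  have hM : 0 < N - 1 := by linarith
  have h1 : 3 / (2 * (N - 1)) = 1.5 / (N - 1) := by
    rw [div_eq_div_iff (by positivity) (by positivity)]; ring
  rw [h1]
  have h2 : C / (N - 1) ^ 2 ≤ |C| / (N - 1) ^ 2 := by
    gcongr
    exact le_abs_self C
  have h3 : |C| / (N - 1) ^ 2 ≤ 0.2 / (N - 1) := by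
    rw [div_le_div_iff₀ (by positivity) hM]
    have : |C| ≤ 0.2 * (N - 1) := by linarith
    nlinarith
  have h4 : 1.7 / (N - 1) ≤ 1.8 / N := by
    rw [div_le_div_iff₀ hM hN0]; linarith
  have h5 : 3 * x - 5 * x ^ 2 > 1.8 / N := by
    have h6 : 5 * x ^ 2 ≤ 0.035 * x := by nlinarith
    have h7 : 2.965 * x > 1.8 / N := by
      have h8 : 2.965 * (0.69 / N) > 1.8 / N := by
        rw [← mul_div_assoc]
        gcongr
        norm_num
      linarith
    linarith
  have h6 : 1.5 / (N - 1) + 0.2 / (N - 1) = 1.7 / (N - 1) := by ring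
  linarith

end Pool.Agent.Results.MP_32269d_co.BetterSplitting
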