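import Mathlib

/-!
# An infinite interval-splitting strategy beating `2 - 3/(2n)` infinitely often (MP_32269d, Q1)

A partition of `[0,1]` into finitely many intervals of positive length is represented by the finite
set of the endpoints of its intervals.
-/

namespace Pool.Agent.Results.MP_32269d_co.DyadicStrategy

open Real

/-- The set of the endpoints of a partition of `[0,1]`. -/
def IsPartition (P : Finset ℝ) : Prop := (0 : ℝ) ∈ P ∧ (1 : ℝ) ∈ P ∧ ∀ x ∈ P, 0 ≤ x ∧ x ≤ 1

/-- `[u, v]` is one of the intervals of the partition. -/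
def IsGap (P : Finset ℝ) (u v : ℝ) : Prop :=
  u ∈ P ∧ v ∈ P ∧ u < v ∧ ∀ w ∈ P, ¬ (u < w ∧ w < v)

/-- The discrepancy of a partition. -/
noncomputable def disc (P : Finset ℝ) : ℝ :=
  sSup {r | ∃ u v u' v', IsGap P u v ∧ IsGap P u' v' ∧ r = (v - u) / (v' - u')}

/-- An infinite-length strategy: for `i ≥ 1` the partition `S i` has `i` intervals (so `i + 1`
endpoints), and `S (i + 1)` arises by adding one endpoint. -/
def IsStrategy (S : ℕ → Finset ℝ) : Prop :=
  ∀ i, 1 ≤ i → IsPartition (S i) ∧ (S i).card = i + 1 ∧ S i ⊆ S (i + 1)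

/-- The greatest discrepancy among the first `n` partitions. -/
noncomputable def discUpTo (S : ℕ → Finset ℝ) (n : ℕ) : ℝ :=
  sSup {r | ∃ t, 1 ≤ t ∧ t ≤ n ∧ r = disc (S t)}

/-- The endpoints, in units of `1 / (2 M)`, after `i` steps of the phase which starts with `M`
intervals. -/
def idx (M i : ℕ) : Finset ℕ := (Finset.range (2 * M + 1)).filter (fun u => u ≤ 2 * i ∨ Even u)

/-- The position of the endpoint with the number `u`. -/
noncomputable def pos (M u : ℕ) : ℝ := 2 * (1 - (2 : ℝ) ^ (-((u : ℝ) / (2 * M))))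

/-- The partition after `i` steps of the phase which starts with `M` intervals. -/
noncomputable def part (M i : ℕ) : Finset ℝ := (idx M i).image (pos M)

/-- The strategy. -/
noncomputable def strat (t : ℕ) : Finset ℝ := part (2 ^ Nat.log 2 t) (t - 2 ^ Nat.log 2 t)

lemma pos_lt {M u v : ℕ} (hM : 1 ≤ M) (h : u < v) : pos M u < pos M v := by
  unfold pos
  have hM' : (0 : ℝ) < M := by exact_mod_cast hM
  have h1 : (2 : ℝ) ^ (-((v : ℝ) / (2 * M))) < (2 : ℝ) ^ (-((u : ℝ) / (2 * M))) := by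
    apply Real.rpow_lt_rpow_of_exponent_lt (by norm_num)
    have : (u : ℝ) < v := by exact_mod_cast h
    have : (u : ℝ) / (2 * M) < v / (2 * M) := by gcongr
    linarith
  linarith

lemma pos_injective {M : ℕ} (hM : 1 ≤ M) : Function.Injective (pos M) :=
  (strictMono_nat_of_lt_succ (fun n => pos_lt hM (Nat.lt_succ_self n))).injective

lemma pos_lt_iff {M : ℕ} (hM : 1 ≤ M) (u v : ℕ) : pos M u < pos M v ↔ u < v :=
  (strictMono_nat_of_lt_succ (fun n => pos_lt hM (Nat.lt_succ_self n))).lt_iff_lt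

lemma pos_zero (M : ℕ) : pos M 0 = 0 := by
  simp [pos]

lemma pos_two_mul {M : ℕ} (hM : 1 ≤ M) : pos M (2 * M) = 1 := by
  have hM' : (0 : ℝ) < M := by exact_mod_cast hM
  unfold pos
  have : ((2 * M : ℕ) : ℝ) / (2 * M) = 1 := by
    push_cast
    field_simp
  rw [this, Real.rpow_neg_one]
  norm_num

lemma pos_double (M u : ℕ) : pos (2 * M) (2 * u) = pos M u := by
  unfold pos
  congr 3
  push_cast
  rw [mul_div_mul_left _ _ (by norm_num : (2 : ℝ) ≠ 0)]

lemma card_idx (M i : ℕ) (hi : i ≤ M) : (idx M i).card = M + i + 1 := by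
  induction i with
  | zero =>
    have : idx M 0 = (Finset.range (M + 1)).image (fun j => 2 * j) := by
      ext u
      unfold idx
      rw [Finset.mem_filter, Finset.mem_image, Finset.mem_range]
      constructor
      · rintro ⟨h1, h2⟩
        rcases h2 with h2 | ⟨j, h2⟩
        · exact ⟨0, by simp, by omega⟩
        · exact ⟨j, by rw [Finset.mem_range]; omega, by omega⟩
      · rintro ⟨j, hj, rfl⟩
        rw [Finset.mem_range] at hj
        exact ⟨by omega, Or.inr ⟨j, by ring⟩⟩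
    rw [this, Finset.card_image_of_injective _ (fun a b h => by simpa using h), Finset.card_range]
  | succ i ih =>
    have : idx M (i + 1) = insert (2 * i + 1) (idx M i) := by
      ext u
      unfold idx
      rw [Finset.mem_insert, Finset.mem_filter, Finset.mem_filter, Finset.mem_range]
      constructor
      · rintro ⟨h1, h2⟩
        by_cases hu : u = 2 * i + 1
        · exact Or.inl hu
        · right
          refine ⟨h1, ?_⟩
          rcases h2 with h2 | h2
          · by_cases h3 : u = 2 * (i + 1)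
            · exact Or.inr ⟨i + 1, by omega⟩
            · left
              omega
          · exact Or.inr h2
      · rintro (rfl | ⟨h1, h2⟩)
        · exact ⟨by omega, Or.inl (by omega)⟩
        · refine ⟨h1, ?_⟩
          rcases h2 with h2 | h2
          · left
            omega
          · exact Or.inr h2
    rw [this, Finset.card_insert_of_notMem, ih (by omega)]
    · ring
    · unfold idx
      rw [Finset.mem_filter]
      rintro ⟨-, h | ⟨j, h⟩⟩
      · omega
      · omega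

lemma mem_idx {M i u : ℕ} : u ∈ idx M i ↔ u ≤ 2 * M ∧ (u ≤ 2 * i ∨ Even u) := by
  unfold idx
  rw [Finset.mem_filter, Finset.mem_range]
  constructor
  · rintro ⟨h1, h2⟩
    exact ⟨by omega, h2⟩
  · rintro ⟨h1, h2⟩
    exact ⟨by omega, h2⟩

lemma isPartition_part {M i : ℕ} (hM : 1 ≤ M) : IsPartition (part M i) := by
  refine ⟨?_, ?_, ?_⟩
  · rw [part, Finset.mem_image]
    exact ⟨0, mem_idx.2 ⟨by omega, Or.inl (by omega)⟩, pos_zero M⟩
  · rw [part, Finset.mem_image]
    exact ⟨2 * M, mem_idx.2 ⟨le_rfl, Or.inr ⟨M, by ring⟩⟩, pos_two_mul hM⟩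
  · intro x hx
    rw [part, Finset.mem_image] at hx
    obtain ⟨u, hu, rfl⟩ := hx
    rw [mem_idx] at hu
    constructor
    · rcases Nat.eq_zero_or_pos u with rfl | h
      · rw [pos_zero]
      · rw [← pos_zero M]
        exact (pos_lt hM h).le
    · rcases Nat.eq_or_lt_of_le hu.1 with h | h
      · rw [h, pos_two_mul hM]
      · rw [← pos_two_mul hM]
        exact (pos_lt hM h).le

lemma isStrategy : IsStrategy strat := by
  intro t ht
  have h1 : 2 ^ Nat.log 2 t ≤ t := Nat.pow_log_le_self 2 (by omega)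
  have h2 : t < 2 ^ (Nat.log 2 t + 1) := Nat.lt_pow_succ_log_self (by norm_num) t
  set k := Nat.log 2 t with hk
  have hM : 1 ≤ 2 ^ k := Nat.one_le_two_pow
  rw [pow_succ] at h2
  refine ⟨isPartition_part hM, ?_, ?_⟩
  · rw [strat, part, Finset.card_image_of_injective _ (pos_injective hM), ← hk,
      card_idx _ _ (by omega)]
    omega
  · rcases Nat.lt_or_ge (t + 1) (2 ^ k * 2) with h3 | h3
    · have h4 : Nat.log 2 (t + 1) = k := by
        rw [Nat.log_eq_iff (Or.inr ⟨by norm_num, by omega⟩)]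
        exact ⟨by omega, by rw [pow_succ]; exact h3⟩
      rw [strat, strat, h4, ← hk]
      intro x hx
      rw [part, Finset.mem_image] at hx ⊢
      obtain ⟨u, hu, rfl⟩ := hx
      refine ⟨u, ?_, rfl⟩
      rw [mem_idx] at hu ⊢
      refine ⟨hu.1, ?_⟩
      rcases hu.2 with h | h
      · left
        omega
      · exact Or.inr h
    · have h4 : Nat.log 2 (t + 1) = k + 1 := by
        rw [Nat.log_eq_iff (Or.inr ⟨by norm_num, by omega⟩)]
        exact ⟨by rw [pow_succ]; omega, by rw [pow_succ, pow_succ]; omega⟩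
      rw [strat, strat, h4, ← hk, pow_succ]
      intro x hx
      rw [part, Finset.mem_image] at hx ⊢
      obtain ⟨u, hu, rfl⟩ := hx
      rw [mem_idx] at hu
      refine ⟨2 * u, ?_, by rw [mul_comm (2 ^ k) 2]; exact pos_double _ _⟩
      rw [mem_idx]
      exact ⟨by omega, Or.inr ⟨u, by ring⟩⟩

/-- The basic ratio. -/
noncomputable def ratio (M : ℕ) : ℝ := (2 : ℝ) ^ (-(1 / (2 * (M : ℝ))))

lemma ratio_pos (M : ℕ) : 0 < ratio M := by
  unfold ratio
  positivity

lemma ratio_lt_one {M : ℕ} (hM : 1 ≤ M) : ratio M < 1 := by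
  have hM' : (0 : ℝ) < M := by exact_mod_cast hM
  unfold ratio
  apply Real.rpow_lt_one_of_one_lt_of_neg (by norm_num)
  have : 0 < 1 / (2 * (M : ℝ)) := by positivity
  linarith

lemma ratio_mono {M N : ℕ} (hM : 1 ≤ M) (h : M ≤ N) : ratio M ≤ ratio N := by
  have hM' : (0 : ℝ) < M := by exact_mod_cast hM
  have h' : (M : ℝ) ≤ N := by exact_mod_cast h
  unfold ratio
  apply Real.rpow_le_rpow_of_exponent_le (by norm_num)
  have : 1 / (2 * (N : ℝ)) ≤ 1 / (2 * M) := by gcongr
  linarith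

lemma pos_eq {M : ℕ} (hM : 1 ≤ M) (u : ℕ) : pos M u = 2 * (1 - ratio M ^ u) := by
  have hM' : (0 : ℝ) < M := by exact_mod_cast hM
  unfold pos ratio
  rw [← Real.rpow_natCast, ← Real.rpow_mul (by norm_num)]
  congr 3
  field_simp

lemma ratio_pow {M : ℕ} (hM : 1 ≤ M) : ratio M ^ (2 * M) = 1 / 2 := by
  have h1 := pos_eq hM (2 * M)
  rw [pos_two_mul hM] at h1
  linarith

/-- The intervals of the partitions. -/
lemma gap_cases {M j : ℕ} (hM : 1 ≤ M) {a b : ℝ} (h : IsGap (part M j) a b) :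
    (∃ u, u < 2 * j ∧ b - a = 2 * ratio M ^ u * (1 - ratio M)) ∨
      ∃ u, 2 * j ≤ u ∧ u + 2 ≤ 2 * M ∧ b - a = 2 * ratio M ^ u * (1 - ratio M ^ 2) := by
  obtain ⟨ha, hb, hab, hno⟩ := h
  rw [part, Finset.mem_image] at ha hb
  obtain ⟨u, hu, rfl⟩ := ha
  obtain ⟨v, hv, rfl⟩ := hb
  rw [pos_lt_iff hM] at hab
  have hno' : ∀ w ∈ idx M j, ¬ (u < w ∧ w < v) := by
    intro w hw hcon
    apply hno (pos M w)
    · rw [part]
      exact Finset.mem_image_of_mem _ hw
    · rw [pos_lt_iff hM, pos_lt_iff hM]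
      exact hcon
  rw [mem_idx] at hu hv
  rcases Nat.lt_or_ge u (2 * j) with hlt | hge
  · left
    have hvu : v = u + 1 := by
      by_contra hne
      exact hno' (u + 1) (mem_idx.2 ⟨by omega, Or.inl (by omega)⟩) ⟨by omega, by omega⟩
    refine ⟨u, hlt, ?_⟩
    rw [hvu, pos_eq hM, pos_eq hM, pow_succ]
    ring
  · right
    have hue : Even u := by
      rcases hu.2 with h | h
      · exact ⟨j, by omega⟩
      · exact h
    have hve : Even v := by
      rcases hv.2 with h | h
      · omega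
      · exact h
    obtain ⟨x, hx⟩ := hue
    obtain ⟨y, hy⟩ := hve
    have hvu : v = u + 2 := by
      by_contra hne
      exact hno' (u + 2) (mem_idx.2 ⟨by omega, Or.inr ⟨x + 1, by omega⟩⟩) ⟨by omega, by omega⟩
    refine ⟨u, hge, by omega, ?_⟩
    rw [hvu, pos_eq hM, pos_eq hM, pow_add]
    ring

lemma disc_part {M j : ℕ} (hM : 1 ≤ M) (hj : j < M) :
    disc (part M j) ≤ ratio M + ratio M ^ 2 := by
  set s := ratio M with hs
  have s0 : 0 < s := ratio_pos M
  have s1 : s < 1 := ratio_lt_one hM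
  have hpow : s ^ (2 * M) = 1 / 2 := ratio_pow hM
  apply csSup_le
  · have hgap : IsGap (part M j) (pos M (2 * M - 2)) (pos M (2 * M)) := by
      refine ⟨?_, ?_, (pos_lt_iff hM _ _).2 (by omega), ?_⟩
      · rw [part]
        exact Finset.mem_image_of_mem _ (mem_idx.2 ⟨by omega, Or.inr ⟨M - 1, by omega⟩⟩)
      · rw [part]
        exact Finset.mem_image_of_mem _ (mem_idx.2 ⟨le_rfl, Or.inr ⟨M, by omega⟩⟩)
      · intro w hw
        rw [part, Finset.mem_image] at hw
        obtain ⟨u, hu, rfl⟩ := hw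
        rw [mem_idx] at hu
        rw [pos_lt_iff hM, pos_lt_iff hM]
        rintro ⟨h1, h2⟩
        rcases hu.2 with h3 | ⟨x, h3⟩ <;> omega
    exact ⟨_, _, _, _, _, hgap, hgap, rfl⟩
  · rintro r ⟨u, v, u', v', h, h', rfl⟩
    have hone : ∀ n, s ^ n ≤ 1 := fun n => pow_le_one₀ s0.le s1.le
    have hpos : ∀ n, 0 < s ^ n := fun n => pow_pos s0 n
    have hanti : ∀ m n, m ≤ n → s ^ n ≤ s ^ m := fun m n h => pow_le_pow_of_le_one s0.le s1.le h
    rcases gap_cases hM h with ⟨a, ha, e⟩ | ⟨a, ha, ha', e⟩ <;>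
    rcases gap_cases hM h' with ⟨b, hb, e'⟩ | ⟨b, hb, hb', e'⟩ <;> rw [e, e', ← hs]
    · have hden : 0 < 2 * s ^ b * (1 - s) := by
        have := hpos b
        have : 0 < 1 - s := by linarith
        positivity
      rw [div_le_iff₀ hden]
      have h3 : s ^ (2 * M) ≤ s ^ (b + 3) := hanti _ _ (by omega)
      rw [hpow, pow_add] at h3
      have h4 := hone a
      have h5 := hpos b
      have h6 : 2 * s ^ 2 ≤ 1 + s := by nlinarith
      have h7 : s ^ a ≤ s ^ b * (s + s ^ 2) := by nlinarith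
      nlinarith
    · have hden : 0 < 2 * s ^ b * (1 - s ^ 2) := by
        have := hpos b
        have : 0 < 1 - s ^ 2 := by nlinarith
        positivity
      rw [div_le_iff₀ hden]
      have h3 : s ^ (2 * M) ≤ s ^ (b + 2) := hanti _ _ (by omega)
      rw [hpow, pow_add] at h3
      have h4 := hone a
      have h5 := hpos b
      have h7 : s ^ a ≤ s ^ b * ((s + s ^ 2) * (1 + s)) := by nlinarith
      have h8 : 0 < 1 - s := by linarith
      have : s ^ a * (1 - s) ≤ s ^ b * ((s + s ^ 2) * (1 + s)) * (1 - s) := by gcongr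
      nlinarith
    · have hden : 0 < 2 * s ^ b * (1 - s) := by
        have := hpos b
        have : 0 < 1 - s := by linarith
        positivity
      rw [div_le_iff₀ hden]
      have h3 : s ^ a ≤ s ^ (b + 1) := hanti _ _ (by omega)
      rw [pow_succ] at h3
      have h8 : 0 < 1 - s ^ 2 := by nlinarith
      have : s ^ a * (1 - s ^ 2) ≤ s ^ b * s * (1 - s ^ 2) := by gcongr
      nlinarith
    · have hden : 0 < 2 * s ^ b * (1 - s ^ 2) := by
        have := hpos b
        have : 0 < 1 - s ^ 2 := by nlinarith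
        positivity
      rw [div_le_iff₀ hden]
      have h3 : s ^ (2 * M) ≤ s ^ (b + 2) := hanti _ _ (by omega)
      rw [hpow, pow_add] at h3
      have h4 := hone a
      have h5 := hpos b
      have h7 : s ^ a ≤ s ^ b * (s + s ^ 2) := by nlinarith
      have h8 : 0 < 1 - s ^ 2 := by nlinarith
      have : s ^ a * (1 - s ^ 2) ≤ s ^ b * (s + s ^ 2) * (1 - s ^ 2) := by gcongr
      nlinarith

lemma disc_strat (K t : ℕ) (ht : 1 ≤ t) (h : t < 2 * 2 ^ K) :
    disc (strat t) ≤ ratio (2 ^ K) + ratio (2 ^ K) ^ 2 := by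
  have h1 : 2 ^ Nat.log 2 t ≤ t := Nat.pow_log_le_self 2 (by omega)
  have h2 : t < 2 ^ (Nat.log 2 t + 1) := Nat.lt_pow_succ_log_self (by norm_num) t
  have hk : Nat.log 2 t ≤ K := by
    have : Nat.log 2 t < K + 1 := Nat.log_lt_of_lt_pow (by omega) (by rw [pow_succ]; omega)
    omega
  set k := Nat.log 2 t with hk'
  have hM : 1 ≤ 2 ^ k := Nat.one_le_two_pow
  rw [pow_succ] at h2
  have h3 := disc_part (M := 2 ^ k) (j := t - 2 ^ k) hM (by omega)
  have h4 : ratio (2 ^ k) ≤ ratio (2 ^ K) :=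
    ratio_mono hM (Nat.pow_le_pow_right (by norm_num) hk)
  have h5 := ratio_pos (2 ^ k)
  have h6 : ratio (2 ^ k) ^ 2 ≤ ratio (2 ^ K) ^ 2 := by gcongr
  rw [strat, ← hk']
  linarith

lemma discUpTo_strat (K : ℕ) :
    discUpTo strat (2 * 2 ^ K - 1) ≤ ratio (2 ^ K) + ratio (2 ^ K) ^ 2 := by
  have hM : 1 ≤ 2 ^ K := Nat.one_le_two_pow
  apply csSup_le
  · exact ⟨_, 1, le_rfl, by omega, rfl⟩
  · rintro r ⟨t, h1, h2, rfl⟩
    exact disc_strat K t h1 (by omega)

lemma exp_neg_le {x : ℝ} (hx : 0 ≤ x) : Real.exp (-x) ≤ 1 - x + x ^ 2 / 2 := by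
  have h1 := Real.quadratic_le_exp_of_nonneg hx
  have h2 : Real.exp (-x) * Real.exp x = 1 := by
    rw [← Real.exp_add]
    simp
  have h3 := Real.exp_pos (-x)
  have h4 : Real.exp (-x) * (1 + x + x ^ 2 / 2) ≤ 1 := by
    calc Real.exp (-x) * (1 + x + x ^ 2 / 2) ≤ Real.exp (-x) * Real.exp x := by gcongr
      _ = 1 := h2
  have h5 : 0 < 1 + x + x ^ 2 / 2 := by positivity
  by_contra hcon
  push Not at hcon
  have h6 : (1 - x + x ^ 2 / 2) * (1 + x + x ^ 2 / 2) < 1 := by
    calc (1 - x + x ^ 2 / 2) * (1 + x + x ^ 2 / 2) < Real.exp (-x) * (1 + x + x ^ 2 / 2) := by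
          gcongr
      _ ≤ 1 := h4
  nlinarith [sq_nonneg (x ^ 2)]

lemma ratio_le {M : ℕ} (hM : 1 ≤ M) :
    ratio M ≤ 1 - Real.log 2 / (2 * M) + (Real.log 2 / (2 * M)) ^ 2 / 2 := by
  have hM' : (0 : ℝ) < M := by exact_mod_cast hM
  have hlog : 0 < Real.log 2 := Real.log_pos (by norm_num)
  have h := exp_neg_le (x := Real.log 2 / (2 * M)) (by positivity)
  have e : ratio M = Real.exp (-(Real.log 2 / (2 * M))) := by
    unfold ratio
    rw [Real.rpow_def_of_pos (by norm_num)]
    congr 1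
    ring
  rw [e]
  exact h

/-- **Result.** There is an infinite-length strategy such that for every `C` some `n` satisfies
`disc_n(S) < 2 - 3/(2n) - C/n²`. -/
theorem result : ∃ S : ℕ → Finset ℝ, IsStrategy S ∧
    ∀ C : ℝ, ∃ n : ℕ, 1 ≤ n ∧ discUpTo S n < 2 - 3 / (2 * n) - C / n ^ 2 := by
  refine ⟨strat, isStrategy, fun C => ?_⟩
  obtain ⟨K, hK⟩ : ∃ K : ℕ, |C| + 5 < 2 ^ K := by
    obtain ⟨K, hK⟩ := pow_unbounded_of_one_lt (|C| + 5) (by norm_num : (1 : ℝ) < 2)
    exact ⟨K, hK⟩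
  have hM : 1 ≤ 2 ^ K := Nat.one_le_two_pow
  refine ⟨2 * 2 ^ K - 1, by omega, ?_⟩
  have h1 := discUpTo_strat K
  have h2 := ratio_le hM
  have h3 := ratio_pos (2 ^ K)
  set N : ℝ := 2 ^ K with hN
  have hcast : ((2 ^ K : ℕ) : ℝ) = N := by push_cast; rfl
  rw [hcast] at h2
  have hn : ((2 * 2 ^ K - 1 : ℕ) : ℝ) = 2 * N - 1 := by
    rw [Nat.cast_sub (by omega)]
    push_cast
    rfl
  rw [hn]
  have hC := abs_nonneg C
  have hC' := le_abs_self C
  have hNpos : 5 < N := by linarith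
  set s := ratio (2 ^ K)
  set L := Real.log 2 with hL
  have hL1 : 0.693 < L := by
    have := Real.log_two_gt_d9
    linarith
  have hL2 : L < 0.694 := by
    have := Real.log_two_lt_d9
    linarith
  set x := L / (2 * N) with hx
  have hx0 : 0 < x := by positivity
  have hx1 : x < 1 := by
    rw [hx, div_lt_one (by positivity)]
    linarith
  have hs2 : s ^ 2 ≤ (1 - x + x ^ 2 / 2) ^ 2 := by gcongr
  have h4 : s + s ^ 2 ≤ 2 - 3 * x + 3 * x ^ 2 := by
    have h5 : (1 - x + x ^ 2 / 2) ^ 2 = 1 - 2 * x + 2 * x ^ 2 - x ^ 3 + x ^ 4 / 4 := by ring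
    have h6 : x ^ 4 ≤ x ^ 3 := pow_le_pow_of_le_one hx0.le hx1.le (by norm_num)
    have h7 : 0 < x ^ 3 := pow_pos hx0 3
    have h8 : 0 < x ^ 2 := pow_pos hx0 2
    linarith
  have hxN : x * (2 * N) = L := by
    rw [hx]
    field_simp
  have key : 3 / (2 * (2 * N - 1)) + C / (2 * N - 1) ^ 2 < 3 * x - 3 * x ^ 2 := by
    have hp : 0 < 2 * N - 1 := by linarith
    have e1 : 3 / (2 * (2 * N - 1)) + C / (2 * N - 1) ^ 2 =
        (3 / 2 * (2 * N - 1) + C) / (2 * N - 1) ^ 2 := by
      field_simp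
    rw [e1, div_lt_iff₀ (by positivity)]
    have e2 : (3 * x - 3 * x ^ 2) * (2 * N - 1) ^ 2 =
        3 * (x * (2 * N)) * (2 * N) - 3 * (x * (2 * N)) ^ 2 - 6 * (x * (2 * N)) + 3 * x
          + 6 * x * (x * (2 * N)) - 3 * x ^ 2 := by ring
    rw [e2, hxN]
    nlinarith
  linarith

end Pool.Agent.Results.MP_32269d_co.DyadicStrategy
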